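import Pool.Agent.helper62.DP8.Spec

set_option autoImplicit false

namespace Pool.Agent.helper62.DP8

theorem PEN_mul {V : Type} {g : ℕ} {u : ℕ → V} (hp : ∀ i, u (i + g) = u i) (n m : ℕ) : u (n + g * m) = u n := by
  induction m with
  | zero => simp
  | succ m ih =>
    have : n + g * (m + 1) = (n + g * m) + g := by ring
    rw [this, hp, ih]

theorem PEN_mod {V : Type} {g : ℕ} {u : ℕ → V} (hp : ∀ i, u (i + g) = u i) (i k : ℕ) : u (i % g + k) = u (i + k) := by
  have h : i + k = (i % g + k) + g * (i / g) := by
    have := Nat.mod_add_div i g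
    omega
  rw [h, PEN_mul hp]

theorem PEN_third {V : Type} (G : SimpleGraph V) (x a b : V) (hc : (G.neighborSet x).ncard = 3) (ha : G.Adj x a) (hb : G.Adj x b)
    (hab : a ≠ b) : ∃ c, G.Adj x c ∧ c ≠ a ∧ c ≠ b ∧ ∀ w, G.Adj x w → w = a ∨ w = b ∨ w = c := by
  obtain ⟨y1, y2, y3, h12, h13, h23, hN⟩ := Set.ncard_eq_three.mp hc
  have hmem : ∀ w, G.Adj x w ↔ w = y1 ∨ w = y2 ∨ w = y3 := by
    intro w
    have : w ∈ G.neighborSet x ↔ w ∈ ({y1, y2, y3} : Set V) := by rw [hN]
    simpa [SimpleGraph.mem_neighborSet] using this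
  have h1 := (hmem a).mp ha
  have h2 := (hmem b).mp hb
  rcases h1 with h1 | h1 | h1 <;> rcases h2 with h2 | h2 | h2
  · exact absurd (h1.trans h2.symm) hab
  · refine ⟨y3, (hmem y3).mpr (by simp), ?_, ?_, ?_⟩
    · rw [h1]; exact fun h => h13 h.symm
    · rw [h2]; exact fun h => h23 h.symm
    · intro w hw
      rw [h1, h2]
      exact (hmem w).mp hw
  · refine ⟨y2, (hmem y2).mpr (by simp), ?_, ?_, ?_⟩
    · rw [h1]; exact fun h => h12 h.symm
    · rw [h2]; exact h23
    · intro w hw
      rw [h1, h2]
      have := (hmem w).mp hw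
      tauto
  · refine ⟨y3, (hmem y3).mpr (by simp), ?_, ?_, ?_⟩
    · rw [h1]; exact fun h => h23 h.symm
    · rw [h2]; exact fun h => h13 h.symm
    · intro w hw
      rw [h1, h2]
      have := (hmem w).mp hw
      tauto
  · exact absurd (h1.trans h2.symm) hab
  · refine ⟨y1, (hmem y1).mpr (by simp), ?_, ?_, ?_⟩
    · rw [h1]; exact h12
    · rw [h2]; exact h13
    · intro w hw
      rw [h1, h2]
      have := (hmem w).mp hw
      tauto
  · refine ⟨y2, (hmem y2).mpr (by simp), ?_, ?_, ?_⟩
    · rw [h1]; exact h23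
    · rw [h2]; exact fun h => h12 h.symm
    · intro w hw
      rw [h1, h2]
      have := (hmem w).mp hw
      tauto
  · refine ⟨y1, (hmem y1).mpr (by simp), ?_, ?_, ?_⟩
    · rw [h1]; exact h13
    · rw [h2]; exact h12
    · intro w hw
      rw [h1, h2]
      have := (hmem w).mp hw
      tauto
  · exact absurd (h1.trans h2.symm) hab

theorem PEN (hCHD : CHD_stmt) : PEN_stmt := by
  intro V G g u hg hG hC hu
  have hper := hu.per
  have hadjp : ∀ i, G.Adj (u i) (u (i + g - 1)) := by
    intro i
    have h1 := hu.adj (i + g - 1)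
    have h2 : i + g - 1 + 1 = i + g := by omega
    rw [h2, hper] at h1
    exact h1.symm
  have hne : ∀ i, i < g → u (i + g - 1) ≠ u (i + 1) := by
    intro i hi h
    have h1 : u (i + g - 1) = u ((i + g - 1) % g) := by
      have := PEN_mod hper (i + g - 1) 0
      simpa using this.symm
    have h2 : u (i + 1) = u ((i + 1) % g) := by
      have := PEN_mod hper (i + 1) 0
      simpa using this.symm
    rw [h1, h2] at h
    have h3 := hu.inj _ (Nat.mod_lt _ (by omega)) _ (Nat.mod_lt _ (by omega)) h
    rcases Nat.eq_zero_or_pos i with h0 | h0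
    · subst h0
      rw [Nat.mod_eq_of_lt (by omega), Nat.mod_eq_of_lt (by omega)] at h3
      omega
    · have h4 : (i + g - 1) % g = i - 1 := by
        have : i + g - 1 = (i - 1) + g := by omega
        rw [this, Nat.add_mod_right, Nat.mod_eq_of_lt (by omega)]
      rw [h4] at h3
      rcases Nat.lt_or_ge (i + 1) g with h5 | h5
      · rw [Nat.mod_eq_of_lt h5] at h3
        omega
      · have : i + 1 = g := by omega
        rw [this, Nat.mod_self] at h3
        omega
  have key : ∀ m : ℕ, ∃ c, m < g → (G.Adj (u m) c ∧ c ≠ u (m + g - 1) ∧ c ≠ u (m + 1) ∧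
      ∀ w, G.Adj (u m) w → w = u (m + g - 1) ∨ w = u (m + 1) ∨ w = c) := by
    intro m
    by_cases hm : m < g
    · obtain ⟨c, h1, h2, h3, h4⟩ := PEN_third G (u m) (u (m + g - 1)) (u (m + 1)) (hC (u m)) (hadjp m) (hu.adj m) (hne m hm)
      exact ⟨c, fun _ => ⟨h1, h2, h3, h4⟩⟩
    · exact ⟨u m, fun h => absurd h hm⟩
  choose q hq using key
  have hgpos : 0 < g := by omega
  refine ⟨fun i => q (i % g), ?_, ?_, ?_, ?_⟩
  · intro i
    simp only [Nat.add_mod_right]
  · intro i
    have h1 := (hq (i % g) (Nat.mod_lt _ hgpos)).1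
    have h2 : u (i % g) = u i := by simpa using PEN_mod hper i 0
    rw [h2] at h1
    exact h1
  · intro i j h
    have hi : u (i % g) = u i := by simpa using PEN_mod hper i 0
    rw [← hi] at h
    have hil : i % g < g := Nat.mod_lt _ hgpos
    have hjl : j % g < g := Nat.mod_lt _ hgpos
    generalize i % g = a at h hil
    simp only at h
    generalize j % g = b at h hjl
    obtain ⟨h1, h2, h3, -⟩ := hq b hjl
    rw [← h] at h1 h2 h3
    rcases lt_trichotomy a b with hab | hab | hab
    · by_cases hk1 : b - a = 1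
      · have : b + g - 1 = a + g := by omega
        rw [this, hper] at h2
        exact h2 rfl
      · by_cases hk2 : (b - a) + 2 ≤ g
        · have h4 := hCHD V G g u (by omega) hG hu a (b - a) (by omega) hk2
          have h5 : a + (b - a) = b := by omega
          rw [h5] at h4
          exact h4 h1.symm
        · have h5 : b + 1 = a + g := by omega
          rw [h5, hper] at h3
          exact h3 rfl
    · subst hab
      exact G.loopless.irrefl _ h1
    · by_cases hk1 : a - b = 1
      · have : b + 1 = a := by omega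
        rw [this] at h3
        exact h3 rfl
      · by_cases hk2 : (a - b) + 2 ≤ g
        · have h4 := hCHD V G g u (by omega) hG hu b (a - b) (by omega) hk2
          have h5 : b + (a - b) = a := by omega
          rw [h5] at h4
          exact h4 h1
        · have h5 : b + g - 1 = a := by omega
          rw [h5] at h2
          exact h2 rfl
  · intro i w hw
    have h2 : u ((i + 1) % g) = u (i + 1) := by simpa using PEN_mod hper (i + 1) 0
    rw [← h2] at hw
    rcases (hq ((i + 1) % g) (Nat.mod_lt _ hgpos)).2.2.2 w hw with h | h | h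
    · left
      have h3 := PEN_mod hper (i + 1) (g - 1)
      have h4 : (i + 1) % g + (g - 1) = (i + 1) % g + g - 1 := by omega
      have h5 : i + 1 + (g - 1) = i + g := by omega
      rw [h4, h5, hper] at h3
      rw [h, h3]
    · right; left
      have h3 := PEN_mod hper (i + 1) 1
      rw [h, h3]
    · right; right
      exact h

end Pool.Agent.helper62.DP8
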